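import Pool.Agent.H97.ST.Targets
import Pool.Agent.H97.NF.Pair

/-!
# Part E7 of MP_57ddd5_pr, modules AEQ and LAW
-/

set_option autoImplicit false

namespace Pool.Agent.H30.E7.AEQ

open MeasureTheory ProbabilityTheory Filter Topology
open Pool.Agent.H99.NS Pool.Agent.H22.LPP Pool.Agent.H97.NF Pool.Agent.H97.ST

theorem pf_AEQ : T_AEQ := by
  intro q ρ
  rw [ae_all_iff]
  intro x
  by_cases hx : ρ x = 0
  · have h1 : ∀ᵐ e ∂(pairLaw q (ρ x)), e.1 = e.2 := by
      rw [hx, pairLaw_zero, ae_map_iff (by fun_prop) (by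
        exact (Set.to_countable _).measurableSet)]
      exact Eventually.of_forall fun _ => rfl
    have h2 : MeasurePreserving (Function.eval x) (PN q ρ) (pairLaw q (ρ x)) :=
      measurePreserving_eval_infinitePi (fun x => pairLaw q (ρ x)) x
    have h3 := h2.quasiMeasurePreserving.ae h1
    filter_upwards [h3] with E hE _
    exact hE
  · exact Eventually.of_forall fun _ h => absurd h hx

end Pool.Agent.H30.E7.AEQ
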