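import Pool.Agent.H97.ST.Targets

/-!
# Part E7 of MP_57ddd5_pr, module DFAR: the far case of the deterministic step
-/

set_option autoImplicit false

namespace Pool.Agent.H30.E7.DFAR

open MeasureTheory ProbabilityTheory Filter Topology
open Pool.Agent.H99.NS Pool.Agent.H22.LPP Pool.Agent.H97.NF Pool.Agent.H97.ST
open Pool.Agent.H95.INS (Near)

theorem reach_oe (k : ℕ) : Reach (oK k) (eK k) := by
  unfold Reach oK eK
  refine ⟨?_, 32 * 64 ^ (k - 1), ?_⟩
  · simp only [sub_self, abs_zero]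
    have : (0 : ℤ) ≤ 64 ^ (k - 1) := by positivity
    linarith
  · simp only
    ring

theorem bdd (k : ℕ) (ω : Env) (j : ℤ) (i h : ℕ) (m : ℤ) :
    BddAbove {x | ∃ γ, Conn (oK k) (eK k) γ ∧ FarP j i h m γ ∧
      x = wt ω (oK k).1 (eK k).1 γ} := by
  refine ⟨T ω (oK k) (eK k), ?_⟩
  rintro x ⟨γ, hγ, -, rfl⟩
  exact le_T ω (reach_le (reach_oe k)) hγ

theorem pf_DFAR (h1 : B_LAM) : T_DFAR := by
  intro k i h A B j m _ _ hA hAB hC
  obtain ⟨⟨hBc, hBw⟩, -⟩ := h1 B (oK k) (eK k) (reach_oe k)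
  have h16 : (0 : ℤ) < 16 ^ i := by positivity
  have h2h : (1 : ℤ) ≤ 2 ^ h := one_le_pow₀ (by norm_num)
  have hprod : (16 : ℤ) ^ i ≤ 2 ^ h * 16 ^ i := le_mul_of_one_le_left h16.le h2h
  obtain ⟨hA1, hA2⟩ := hA
  have hfar : FarP j i h m (Lam B (oK k) (eK k)) := by
    unfold FarP
    change 4 * 2 ^ h * 16 ^ i < |Lam B (oK k) (eK k) j - Lk k A j| at hAB
    rcases lt_abs.1 hAB with h3 | h3
    · right
      nlinarith
    · left
      nlinarith
  have hgi : 0 < gi i h := by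
    unfold gi
    positivity
  have e1 : T B (oK k) (eK k) ≤ Tfar k B j i h m := by
    rw [← hBw]
    exact le_csSup (bdd k B j i h m) ⟨_, hBc, hfar, rfl⟩
  have e2 := abs_le.1 hC.f
  have e3 := abs_le.1 hC.t
  obtain ⟨x, ⟨γ, hγ, hγf, rfl⟩, hx⟩ := exists_lt_of_lt_csSup
    (s := {x | ∃ γ, Conn (oK k) (eK k) γ ∧ FarP j i h m γ ∧ x = wt A (oK k).1 (eK k).1 γ})
    (b := Tfar k A j i h m - gi i h / 2) ⟨_, _, hBc, hfar, rfl⟩ (by
      change Tfar k A j i h m - gi i h / 2 < Tfar k A j i h m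
      linarith)
  refine ⟨γ, ⟨hγ, ?_⟩, ?_⟩
  · linarith [e2.1, e3.2]
  · rcases hγf with h3 | h3
    · rw [abs_sub_comm]
      refine le_trans ?_ (le_abs_self _)
      nlinarith
    · refine le_trans ?_ (le_abs_self _)
      nlinarith

end Pool.Agent.H30.E7.DFAR
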