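import Pool.Agent.H97.ST.Targets

/-!
# Part E7 of MP_57ddd5_pr, module FIMP: events depending on finitely many sites are measurable
-/

set_option autoImplicit false

namespace Pool.Agent.H30.E7.FIMP

open MeasureTheory ProbabilityTheory Filter Topology
open Pool.Agent.H99.NS Pool.Agent.H22.LPP Pool.Agent.H97.NF Pool.Agent.H97.ST

theorem pf_FIMP : T_FIMP := by
  classical
  intro β _ _ _ A Ev hA hdep
  rcases isEmpty_or_nonempty β with hβ | ⟨⟨b0⟩⟩
  · have hE : IsEmpty (Site → β) := ⟨fun f => hβ.false (f (0, 0))⟩
    have : {E : Site → β | Ev E} = ∅ := Set.eq_empty_of_isEmpty _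
    rw [this]
    exact MeasurableSet.empty
  · have hf : Finite A := hA
    let ext : (A → β) → Site → β := fun e x => if h : x ∈ A then e ⟨x, h⟩ else b0
    have hset : {E : Site → β | Ev E} = (fun (E : Site → β) (x : A) => E x) ⁻¹'
        {e | Ev (ext e)} := by
      ext E
      simp only [Set.mem_ofPred_eq, Set.mem_preimage]
      refine hdep _ _ fun x hx => ?_
      simp only [ext]
      rw [dif_pos hx]
    rw [hset]
    have hm : Measurable (fun (E : Site → β) (x : A) => E x) := by fun_prop
    exact hm (Set.to_countable _).measurableSet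

end Pool.Agent.H30.E7.FIMP
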