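import Pool.Agent.H97.ST.Targets
import Pool.Agent.H97.NF.Pair

/-!
# Part E7 of MP_57ddd5_pr, module FST: the first step of the telescoping
-/

set_option autoImplicit false

namespace Pool.Agent.H30.E7.FST

open MeasureTheory ProbabilityTheory Filter Topology
open scoped ENNReal
open Pool.Agent.H99.NS Pool.Agent.H22.LPP Pool.Agent.H97.NF Pool.Agent.H97.ST

/-- One noisy site: an event of the first environment is asymptotically independent of the
event that the site is noisy. -/
theorem site_bound (q r : ℝ) (hr0 : 0 ≤ r) (hr1 : r ≤ 1) (G : Set Env) (hG : MeasurableSet G)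
    (y : Site) :
    PN q (fun _ => r) {E | eA E ∈ G ∧ (E y).1 ≠ (E y).2} ≤ ENNReal.ofReal r * PE q G := by
  have hS : MeasurableSet {E : PEnv | eA E ∈ G ∧ (E y).1 ≠ (E y).2} := by
    refine (measurable_eA hG).inter ?_
    have h1 : MeasurableSet {e : ℕ × ℕ | e.1 ≠ e.2} := (Set.to_countable _).measurableSet
    have h2 : Measurable (fun E : PEnv => E y) := measurable_pi_apply y
    exact h2 h1
  have hup := mp_updPN q (fun _ => r) y r
  have hself : Function.update (fun _ : Site => r) y r = fun _ => r :=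
    Function.update_eq_self y _
  rw [hself] at hup
  rw [← hup.measure_preimage hS.nullMeasurableSet,
    Measure.prod_apply (hup.measurable hS)]
  -- the measurable function of the first environment
  have hT : MeasurableSet ((fun p : Env × ℕ => Function.update p.1 y p.2) ⁻¹' G) :=
    (mp_updPE q y).measurable hG
  have hmeas : Measurable fun ω : Env => geo q {k | Function.update ω y k ∈ G} :=
    measurable_measure_prodMk_left hT
  have hpt : ∀ E : PEnv, pairLaw q r (Prod.mk E ⁻¹'
      ((fun p : PEnv × (ℕ × ℕ) => Function.update p.1 y p.2) ⁻¹'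
        {E | eA E ∈ G ∧ (E y).1 ≠ (E y).2})) ≤
      ENNReal.ofReal r * geo q {k | Function.update (eA E) y k ∈ G} := by
    intro E
    have hset : (Prod.mk E ⁻¹' ((fun p : PEnv × (ℕ × ℕ) => Function.update p.1 y p.2) ⁻¹'
        {E | eA E ∈ G ∧ (E y).1 ≠ (E y).2})) =
        {e : ℕ × ℕ | Function.update (eA E) y e.1 ∈ G ∧ e.1 ≠ e.2} := by
      ext e
      simp only [Set.mem_preimage, Set.mem_ofPred_eq, Function.update_self]
      have : eA (Function.update E y e) = Function.update (eA E) y e.1 := by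
        funext x
        unfold eA
        by_cases hx : x = y
        · subst hx
          simp
        · simp [Function.update_of_ne hx]
      rw [this]
    rw [hset]
    have hmT : MeasurableSet {e : ℕ × ℕ | Function.update (eA E) y e.1 ∈ G ∧ e.1 ≠ e.2} :=
      (Set.to_countable _).measurableSet
    unfold pairLaw
    rw [cl_of_mem hr0 hr1, Measure.add_apply, Measure.smul_apply, Measure.smul_apply,
      Measure.map_apply measurable_from_nat hmT]
    have h0 : (fun k : ℕ => (k, k)) ⁻¹'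
        {e : ℕ × ℕ | Function.update (eA E) y e.1 ∈ G ∧ e.1 ≠ e.2} = ∅ := by
      ext k
      simp
    rw [h0, measure_empty, smul_zero, zero_add, smul_eq_mul]
    gcongr
    calc ((geo q).prod (geo q)) {e : ℕ × ℕ | Function.update (eA E) y e.1 ∈ G ∧ e.1 ≠ e.2}
        ≤ ((geo q).prod (geo q)) ({k | Function.update (eA E) y k ∈ G} ×ˢ Set.univ) :=
          measure_mono fun e he => ⟨he.1, trivial⟩
      _ = geo q {k | Function.update (eA E) y k ∈ G} := by
          rw [Measure.prod_prod, measure_univ, mul_one]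
  calc ∫⁻ E, pairLaw q r (Prod.mk E ⁻¹'
      ((fun p : PEnv × (ℕ × ℕ) => Function.update p.1 y p.2) ⁻¹'
        {E | eA E ∈ G ∧ (E y).1 ≠ (E y).2})) ∂(PN q fun _ => r)
      ≤ ∫⁻ E, ENNReal.ofReal r * geo q {k | Function.update (eA E) y k ∈ G}
          ∂(PN q fun _ => r) := lintegral_mono hpt
    _ = ENNReal.ofReal r * ∫⁻ E, geo q {k | Function.update (eA E) y k ∈ G}
          ∂(PN q fun _ => r) := lintegral_const_mul _ (hmeas.comp measurable_eA)
    _ = ENNReal.ofReal r * ∫⁻ ω, geo q {k | Function.update ω y k ∈ G} ∂(PE q) := by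
        rw [(mp_eA q fun _ => r).lintegral_comp hmeas]
    _ = ENNReal.ofReal r * PE q G := by
        rw [← (mp_updPE q y).measure_preimage hG.nullMeasurableSet, Measure.prod_apply hT]
        rfl

/-- The windows are disjoint. -/
theorem win_disj (hW : T_WIN) (i : ℕ) {m m' : ℤ} (h : m ≠ m') : Disjoint (Win i m) (Win i m') := by
  rw [Set.disjoint_left]
  intro x hx hx'
  exact h (((hW.1 i x m).1 hx).trans ((hW.1 i x m').1 hx').symm)

/-- Sum over the windows. -/
theorem tsum_win (hW : T_WIN) (μ : Measure Env) (L : Env → ℤ) (hL : Measurable L) (i : ℕ) :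
    ∑' m : ℤ, μ (L ⁻¹' Win i m) ≤ μ Set.univ := by
  refine tsum_measure_le_measure_univ
    (fun m => (hL (Set.to_countable _).measurableSet).nullMeasurableSet) ?_
  intro m m' hmm
  exact ((win_disj hW i hmm).preimage L).aedisjoint

theorem pf_FST (hW : T_WIN) : T_FST := by
  intro q r hr0 hr1 L hL j i R hR
  have hterm : ∀ m : ℤ, PN q (fun _ => r)
      {E | L (eA E) ∈ Win i m ∧ ∃ y ∈ BoxW j i m R, (E y).1 ≠ (E y).2} ≤
      ENNReal.ofReal ((64 ^ i + 1) * (16 ^ i + 2 * R)) *
        (ENNReal.ofReal r * PE q (L ⁻¹' Win i m)) := by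
    intro m
    obtain ⟨S, hS, hcard⟩ := hW.2.2.2.2 j i m R hR
    have hG : MeasurableSet (L ⁻¹' Win i m) := hL (Set.to_countable _).measurableSet
    have hsub : {E : PEnv | L (eA E) ∈ Win i m ∧ ∃ y ∈ BoxW j i m R, (E y).1 ≠ (E y).2} ⊆
        ⋃ y ∈ S, {E : PEnv | eA E ∈ L ⁻¹' Win i m ∧ (E y).1 ≠ (E y).2} := by
      rintro E ⟨h1, y, hy, h2⟩
      rw [← hS] at hy
      exact Set.mem_biUnion hy ⟨h1, h2⟩
    calc _ ≤ PN q (fun _ => r)
          (⋃ y ∈ S, {E : PEnv | eA E ∈ L ⁻¹' Win i m ∧ (E y).1 ≠ (E y).2}) :=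
          measure_mono hsub
      _ ≤ ∑ y ∈ S, PN q (fun _ => r)
          {E : PEnv | eA E ∈ L ⁻¹' Win i m ∧ (E y).1 ≠ (E y).2} :=
          measure_biUnion_finset_le _ _
      _ ≤ ∑ _y ∈ S, ENNReal.ofReal r * PE q (L ⁻¹' Win i m) :=
          Finset.sum_le_sum fun y _ => site_bound q r hr0 hr1 _ hG y
      _ = (S.card : ℝ≥0∞) * (ENNReal.ofReal r * PE q (L ⁻¹' Win i m)) := by
          rw [Finset.sum_const, nsmul_eq_mul]
      _ ≤ _ := by
          gcongr
          rw [← ENNReal.ofReal_natCast]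
          exact ENNReal.ofReal_le_ofReal hcard
  calc _ ≤ ∑' m : ℤ, ENNReal.ofReal ((64 ^ i + 1) * (16 ^ i + 2 * R)) *
        (ENNReal.ofReal r * PE q (L ⁻¹' Win i m)) := ENNReal.tsum_le_tsum hterm
    _ = ENNReal.ofReal ((64 ^ i + 1) * (16 ^ i + 2 * R)) *
        (ENNReal.ofReal r * ∑' m : ℤ, PE q (L ⁻¹' Win i m)) := by
        rw [ENNReal.tsum_mul_left, ENNReal.tsum_mul_left]
    _ ≤ ENNReal.ofReal ((64 ^ i + 1) * (16 ^ i + 2 * R)) * (ENNReal.ofReal r * 1) := by
        gcongr
        exact (tsum_win hW (PE q) L hL i).trans measure_univ.le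
    _ = ENNReal.ofReal (r * ((64 ^ i + 1) * (16 ^ i + 2 * R))) := by
        rw [mul_one, mul_comm, ← ENNReal.ofReal_mul hr0]

end Pool.Agent.H30.E7.FST
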