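import Pool.Agent.H97.ST.Targets

/-!
# Part E7 of MP_57ddd5_pr, module IST: stability at every level gives stability on average
-/

set_option autoImplicit false

namespace Pool.Agent.H30.E7.IST

open MeasureTheory ProbabilityTheory Filter Topology
open Pool.Agent.H99.NS Pool.Agent.H22.LPP Pool.Agent.H97.NF Pool.Agent.H97.ST
open Pool.Agent.H95.INS (Near I_ST)

theorem pf_IST : T_IST := by
  intro q _ _ hD η hη
  obtain ⟨κ, hκ, hκ1, k₀, hk₀, h⟩ := hD η hη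
  refine ⟨κ, hκ, hκ1, k₀, hk₀, ?_⟩
  intro k r hk hr hr1
  have hk1 : 1 ≤ k := hk₀.trans hk
  have h1 : ∀ j ∈ Finset.Ioc (-(16 * 64 ^ (k - 1) : ℤ)) (16 * 64 ^ (k - 1)),
      (PN q (fun _ => r)).real {E |
        Lam (eA E) (-(32 * 64 ^ (k - 1)), 0) (32 * 64 ^ (k - 1), 0) j ≠
        Lam (eB E) (-(32 * 64 ^ (k - 1)), 0) (32 * 64 ^ (k - 1), 0) j} ≤ η := by
    intro j hj
    rw [Finset.mem_Ioc] at hj
    have hm : Mid k j := by
      unfold Mid
      rw [abs_le]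
      exact ⟨hj.1.le, hj.2⟩
    exact h k hk r hr hr1 j hm
  refine (Finset.sum_le_sum h1).trans ?_
  rw [Finset.sum_const, Int.card_Ioc, nsmul_eq_mul]
  have h2 : (((16 * 64 ^ (k - 1) : ℤ) - -(16 * 64 ^ (k - 1) : ℤ)).toNat : ℝ) =
      32 * 64 ^ (k - 1) := by
    have h3 : ((16 * 64 ^ (k - 1) : ℤ) - -(16 * 64 ^ (k - 1) : ℤ)).toNat =
        32 * 64 ^ (k - 1) := by
      have : (16 * 64 ^ (k - 1) : ℤ) - -(16 * 64 ^ (k - 1) : ℤ) =
          ((32 * 64 ^ (k - 1) : ℕ) : ℤ) := by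
        push_cast
        ring
      rw [this, Int.toNat_natCast]
    rw [h3]
    push_cast
    ring
  rw [h2]
  obtain ⟨n, rfl⟩ : ∃ n, k = n + 1 := ⟨k - 1, by omega⟩
  simp only [Nat.add_sub_cancel]
  rw [pow_succ]
  have : (0 : ℝ) < 64 ^ n := by positivity
  nlinarith [mul_pos this hη]

end Pool.Agent.H30.E7.IST
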