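import Pool.Agent.H97.ST.Targets
import Pool.Agent.H97.NF.Pair

/-!
# Part E7 of MP_57ddd5_pr, module LAW: law of the pair used in the telescoping
-/

set_option autoImplicit false

namespace Pool.Agent.H30.E7.LAW

open MeasureTheory ProbabilityTheory Filter Topology
open Pool.Agent.H99.NS Pool.Agent.H22.LPP Pool.Agent.H97.NF Pool.Agent.H97.ST

theorem pf_LAW : T_LAW := by
  classical
  intro q r U V hr0 hr1 hUV
  let φ : Site → ℕ × ℕ → ℕ × ℕ := fun x =>
    if x ∈ U then (fun e => (e.2, e.2)) else if x ∈ V then id else fun e => (e.1, e.1)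
  have hφm : ∀ x, Measurable (φ x) := by
    intro x
    simp only [φ]
    split_ifs
    · fun_prop
    · exact measurable_id
    · fun_prop
  have hfun : (fun (E : PEnv) (x : Site) =>
      (glue U (eA E) (eB E) x, glue V (eA E) (eB E) x)) = fun E x => φ x (E x) := by
    funext E x
    simp only [φ]
    by_cases h1 : x ∈ U
    · rw [if_pos h1, glue_of_mem _ _ h1, glue_of_mem _ _ (hUV h1)]
      rfl
    · rw [if_neg h1, glue_of_notMem _ _ h1]
      by_cases h2 : x ∈ V
      · rw [if_pos h2, glue_of_mem _ _ h2]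
        rfl
      · rw [if_neg h2, glue_of_notMem _ _ h2]
        rfl
  refine ⟨?_, ?_⟩
  · rw [hfun]
    exact measurable_pi_lambda _ fun x => (hφm x).comp (measurable_pi_apply x)
  · have h := Measure.infinitePi_map_pi (fun _ : Site => pairLaw q r) (f := φ) hφm
    rw [hfun]
    unfold PN
    rw [h]
    congr 1
    funext x
    unfold rhoS
    simp only [φ]
    by_cases h1 : x ∈ U
    · rw [if_pos h1, if_neg (fun h => h.2 h1), pairLaw_zero]
      have e : (fun e : ℕ × ℕ => (e.2, e.2)) = (fun k : ℕ => (k, k)) ∘ Prod.snd := rfl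
      rw [e, ← Measure.map_map measurable_from_nat measurable_snd, pairLaw_snd]
    · rw [if_neg h1]
      by_cases h2 : x ∈ V
      · rw [if_pos h2, if_pos ⟨h2, h1⟩, Measure.map_id]
      · rw [if_neg h2, if_neg (fun h => h2 h.1), pairLaw_zero]
        have e : (fun e : ℕ × ℕ => (e.1, e.1)) = (fun k : ℕ => (k, k)) ∘ Prod.fst := rfl
        rw [e, ← Measure.map_map measurable_from_nat measurable_fst, pairLaw_fst]

end Pool.Agent.H30.E7.LAW
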