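import Pool.Agent.H97.ST.Targets
import Pool.Agent.H97.NF.Pair

/-!
# Part E7 of MP_57ddd5_pr, module TRF: transfer of events to the other environment
-/

set_option autoImplicit false

namespace Pool.Agent.H30.E7.TRF

open MeasureTheory ProbabilityTheory Filter Topology
open scoped ENNReal
open Pool.Agent.H99.NS Pool.Agent.H22.LPP Pool.Agent.H97.NF Pool.Agent.H97.ST

/-- Sum over the windows, with an arbitrary event. -/
theorem tsum_win (hW : T_WIN) (q : ℝ) (L : Env → ℤ) (hL : Measurable L) (Z : Set Env) (i : ℕ) :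
    ∑' m : ℤ, PE q (L ⁻¹' Win i m ∩ Z) ≤ PE q Z := by
  have h1 : ∀ m : ℤ, PE q (L ⁻¹' Win i m ∩ Z) = (PE q).restrict Z (L ⁻¹' Win i m) := by
    intro m
    rw [Measure.restrict_apply (hL (Set.to_countable _).measurableSet)]
  simp only [h1]
  refine (tsum_measure_le_measure_univ
    (fun m => (hL (Set.to_countable _).measurableSet).nullMeasurableSet) ?_).trans ?_
  · intro m m' hmm
    refine Disjoint.aedisjoint ?_
    refine Disjoint.preimage L ?_
    rw [Set.disjoint_left]
    intro x hx hx'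
    exact hmm (((hW.1 i x m).1 hx).trans ((hW.1 i x m').1 hx').symm)
  · rw [Measure.restrict_apply MeasurableSet.univ, Set.univ_inter]

theorem pf_TRF (hW : T_WIN) : T_TRF := by
  intro q L Z i h ρ hL
  constructor
  · -- the shifts
    let D : Finset ℤ := Finset.Icc (-(4 * 2 ^ h)) (4 * 2 ^ h)
    have hterm : ∀ m : ℤ, PN q (ρ m) {E | L (eA E) ∈ Win i m ∧
        |L (eB E) - L (eA E)| ≤ 4 * 2 ^ h * 16 ^ i ∧ Z (eB E)} ≤
        ∑ d ∈ D, PE q (L ⁻¹' Win i (m + d) ∩ {ω | Z ω}) := by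
      intro m
      have hsub : {E : PEnv | L (eA E) ∈ Win i m ∧
          |L (eB E) - L (eA E)| ≤ 4 * 2 ^ h * 16 ^ i ∧ Z (eB E)} ⊆
          ⋃ d ∈ D, eB ⁻¹' (L ⁻¹' Win i (m + d) ∩ {ω | Z ω}) := by
        rintro E ⟨hA, hAB, hZ⟩
        have h16 : (0 : ℤ) < 16 ^ i := by positivity
        have hB : L (eB E) ∈ Win i (L (eB E) / 16 ^ i) := (hW.1 i _ _).2 rfl
        have hd : L (eB E) / 16 ^ i - m ∈ D := by
          rw [Finset.mem_Icc]
          obtain ⟨a1, a2⟩ := hA
          obtain ⟨b1, b2⟩ := hB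
          rw [abs_le] at hAB
          constructor
          · have : (m - 4 * 2 ^ h) * 16 ^ i < (L (eB E) / 16 ^ i + 1) * 16 ^ i := by
              nlinarith
            have := lt_of_mul_lt_mul_right this h16.le
            omega
          · have : L (eB E) / 16 ^ i * 16 ^ i < (m + 1 + 4 * 2 ^ h) * 16 ^ i := by
              nlinarith
            have := lt_of_mul_lt_mul_right this h16.le
            omega
        refine Set.mem_biUnion hd ?_
        refine ⟨?_, hZ⟩
        change L (eB E) ∈ Win i (m + (L (eB E) / 16 ^ i - m))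
        rw [add_sub_cancel]
        exact hB
      calc _ ≤ PN q (ρ m) (⋃ d ∈ D, eB ⁻¹' (L ⁻¹' Win i (m + d) ∩ {ω | Z ω})) :=
            measure_mono hsub
        _ ≤ ∑ d ∈ D, PN q (ρ m) (eB ⁻¹' (L ⁻¹' Win i (m + d) ∩ {ω | Z ω})) :=
            measure_biUnion_finset_le _ _
        _ ≤ _ := Finset.sum_le_sum fun d _ => (mp_eB q (ρ m)).measure_preimage_le _
    calc _ ≤ ∑' m : ℤ, ∑ d ∈ D, PE q (L ⁻¹' Win i (m + d) ∩ {ω | Z ω}) :=
          ENNReal.tsum_le_tsum hterm
      _ = ∑ d ∈ D, ∑' m : ℤ, PE q (L ⁻¹' Win i (m + d) ∩ {ω | Z ω}) :=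
          Summable.tsum_finsetSum fun d _ => ENNReal.summable
      _ = ∑ d ∈ D, ∑' m : ℤ, PE q (L ⁻¹' Win i m ∩ {ω | Z ω}) := by
          refine Finset.sum_congr rfl fun d _ => ?_
          exact (Equiv.addRight d).tsum_eq
            (fun m : ℤ => PE q (L ⁻¹' Win i m ∩ {ω | Z ω}))
      _ ≤ ∑ _d ∈ D, PE q {ω | Z ω} := Finset.sum_le_sum fun d _ => tsum_win hW q L hL _ i
      _ = (D.card : ℝ≥0∞) * PE q {ω | Z ω} := by rw [Finset.sum_const, nsmul_eq_mul]
      _ ≤ ENNReal.ofReal (16 * 2 ^ h) * PE q {ω | Z ω} := by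
          gcongr
          rw [← ENNReal.ofReal_natCast]
          refine ENNReal.ofReal_le_ofReal ?_
          have h1 : D.card = 8 * 2 ^ h + 1 := by
            simp only [D, Int.card_Icc]
            have : (4 * 2 ^ h + 1 - -(4 * 2 ^ h) : ℤ) = ((8 * 2 ^ h + 1 : ℕ) : ℤ) := by
              push_cast
              ring
            rw [this, Int.toNat_natCast]
          rw [h1]
          push_cast
          have : (1 : ℝ) ≤ 2 ^ h := one_le_pow₀ (by norm_num)
          linarith
  · refine le_trans (ENNReal.tsum_le_tsum fun m => ?_) (tsum_win hW q L hL {ω | Z ω} i)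
    exact (mp_eA q (ρ m)).measure_preimage_le (L ⁻¹' Win i m ∩ {ω | Z ω})

end Pool.Agent.H30.E7.TRF
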